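import Pool.Agent.Helper36.SPR.St5

/-! # SPR3, module NTS: primes `p` for which `p - 1` has a large smooth part -/

set_option autoImplicit false

namespace Pool.Agent.Helper80.SPR

open Pool.Agent.Helper36.SPR
open Finset

/-- Upper bound in Mertens first theorem (copy of `Pool.Agent.Helper13.Dn.mertens_upper`, to keep the
imports light). -/
theorem nts_mertens (n : ℕ) (hn : 1 ≤ n) :
    ∑ p ∈ n.primesLE, Real.log p / p ≤ Real.log n + Real.log 4 := by
  have h1 : ∑ p ∈ n.primesLE, ((n / p : ℕ) : ℝ) * Real.log p ≤ Real.log (n.factorial : ℕ) := by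
    rw [Real.log_nat_eq_sum_factorization, Finsupp.sum]
    have hsub : n.primesLE ⊆ (n.factorial).factorization.support := by
      intro p hp
      rw [Nat.mem_primesLE] at hp
      rw [Nat.support_factorization, Nat.mem_primeFactors]
      exact ⟨hp.2, hp.2.dvd_factorial.2 hp.1, Nat.factorial_ne_zero n⟩
    refine le_trans ?_ (Finset.sum_le_sum_of_subset_of_nonneg hsub
      (fun p _ _ => mul_nonneg (Nat.cast_nonneg _) (Real.log_natCast_nonneg p)))
    refine Finset.sum_le_sum fun p hp => ?_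
    rw [Nat.mem_primesLE] at hp
    refine mul_le_mul_of_nonneg_right ?_ (Real.log_natCast_nonneg p)
    have hfac := Nat.factorization_factorial hp.2 (n := n) (b := Nat.log p n + 1) (by omega)
    rw [hfac]
    have hlog : 1 ≤ Nat.log p n := Nat.log_pos hp.2.one_lt hp.1
    have : n / p ^ 1 ≤ ∑ i ∈ Ico 1 (Nat.log p n + 1), n / p ^ i :=
      Finset.single_le_sum (f := fun i => n / p ^ i) (fun i _ => Nat.zero_le _)
        (Finset.mem_Ico.2 ⟨le_rfl, by omega⟩)
    rw [pow_one] at this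
    exact_mod_cast this
  have h2 : Real.log (n.factorial : ℕ) ≤ n * Real.log n := by
    have : ((n.factorial : ℕ) : ℝ) ≤ (n : ℝ) ^ n := by exact_mod_cast Nat.factorial_le_pow n
    rw [← Real.log_pow]
    exact Real.log_le_log (by exact_mod_cast Nat.factorial_pos n) this
  have h3 : ∑ p ∈ n.primesLE, Real.log p ≤ Real.log 4 * n := by
    rw [← Chebyshev.theta_eq_sum_primesLE_log]
    exact Chebyshev.theta_le_log4_mul_x (by positivity)
  have h4 : (n : ℝ) * ∑ p ∈ n.primesLE, Real.log p / p ≤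
      ∑ p ∈ n.primesLE, ((n / p : ℕ) : ℝ) * Real.log p + ∑ p ∈ n.primesLE, Real.log p := by
    rw [Finset.mul_sum, ← Finset.sum_add_distrib]
    refine Finset.sum_le_sum fun p hp => ?_
    rw [Nat.mem_primesLE] at hp
    have hp0 : (0 : ℝ) < p := by exact_mod_cast hp.2.pos
    have hlog := Real.log_natCast_nonneg p
    have hdiv : (n : ℝ) / p ≤ ((n / p : ℕ) : ℝ) + 1 := by
      rw [div_le_iff₀ hp0]
      have h5 := Nat.div_add_mod n p
      have h6 := Nat.mod_lt n hp.2.pos
      have h7 : n ≤ (n / p + 1) * p := by nlinarith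
      exact_mod_cast h7
    calc (n : ℝ) * (Real.log p / p) = (n : ℝ) / p * Real.log p := by ring
      _ ≤ (((n / p : ℕ) : ℝ) + 1) * Real.log p := mul_le_mul_of_nonneg_right hdiv hlog
      _ = _ := by ring
  have hn0 : (0 : ℝ) < n := by exact_mod_cast hn
  have h5 : (n : ℝ) * ∑ p ∈ n.primesLE, Real.log p / p ≤ n * (Real.log n + Real.log 4) := by
    nlinarith
  exact le_of_mul_le_mul_left h5 hn0

/-- the logarithm of the smooth part -/
theorem nts_log (y n J : ℕ) (hn : 0 < n) (hJ : n < 2 ^ (J + 1)) :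
    Real.log (Sm y n : ℝ) ≤
      ∑ l ∈ y.primesLE, ∑ j ∈ Icc 1 J, if l ^ j ∣ n then Real.log l else 0 := by
  have hne : ∀ l ∈ n.primeFactors.filter (fun l => l ≤ y),
      ((l ^ (n.factorization l) : ℕ) : ℝ) ≠ 0 := by
    intro l hl
    have hp := Nat.prime_of_mem_primeFactors (Finset.mem_filter.1 hl).1
    exact_mod_cast (pow_pos hp.pos _).ne'
  have hnn : ∀ l ∈ y.primesLE, 0 ≤ ∑ j ∈ Icc 1 J, if l ^ j ∣ n then Real.log (l : ℝ) else 0 := by
    intro l _
    refine Finset.sum_nonneg fun j _ => ?_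
    split_ifs
    · exact Real.log_natCast_nonneg l
    · exact le_rfl
  have hsub : n.primeFactors.filter (fun l => l ≤ y) ⊆ y.primesLE := by
    intro l hl
    rw [Finset.mem_filter] at hl
    exact Nat.mem_primesLE.2 ⟨hl.2, Nat.prime_of_mem_primeFactors hl.1⟩
  have e1 : Real.log (Sm y n : ℝ) =
      ∑ l ∈ n.primeFactors.filter (fun l => l ≤ y), (n.factorization l : ℝ) * Real.log l := by
    unfold Sm
    rw [Nat.cast_prod, Real.log_prod hne]
    refine Finset.sum_congr rfl fun l _ => ?_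
    rw [Nat.cast_pow, Real.log_pow]
  rw [e1]
  refine le_trans (Finset.sum_le_sum fun l hl => ?_)
    (Finset.sum_le_sum_of_subset_of_nonneg hsub fun l hl _ => hnn l hl)
  rw [Finset.mem_filter] at hl
  have hp := Nat.prime_of_mem_primeFactors hl.1
  rw [← Finset.sum_filter, Finset.sum_const, nsmul_eq_mul]
  refine mul_le_mul_of_nonneg_right ?_ (Real.log_natCast_nonneg l)
  have h2 : Icc 1 (n.factorization l) ⊆ (Icc 1 J).filter (fun j => l ^ j ∣ n) := by
    intro j hj
    rw [Finset.mem_Icc] at hj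
    rw [Finset.mem_filter, Finset.mem_Icc]
    have h3 : l ^ j ∣ n := (pow_dvd_pow l hj.2).trans (Nat.ordProj_dvd n l)
    refine ⟨⟨hj.1, ?_⟩, h3⟩
    have h4 : 2 ^ j ≤ n := (Nat.pow_le_pow_left hp.two_le j).trans (Nat.le_of_dvd hn h3)
    have h5 : 2 ^ j < 2 ^ (J + 1) := lt_of_le_of_lt h4 hJ
    have h6 := (Nat.pow_lt_pow_iff_right (by norm_num : 1 < 2)).1 h5
    omega
  have h3 := Finset.card_le_card h2
  rw [Nat.card_Icc, Nat.add_sub_cancel] at h3
  exact_mod_cast h3

/-- trivial bound for a progression -/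
theorem nts_triv (x X D : ℕ) (hD : 0 < D) :
    ∑ p ∈ (Ioc x X).filter (fun p => p.Prime ∧ p ≡ 1 [MOD D]), (1 : ℝ) / p
      ≤ (1 + Real.log X) / D := by
  have hDr : (0 : ℝ) < D := by exact_mod_cast hD
  have key : ∀ p ∈ (Ioc x X).filter (fun p => p.Prime ∧ p ≡ 1 [MOD D]),
      ∃ m, p = D * m + 1 ∧ 1 ≤ m ∧ m ≤ X := by
    intro p hp
    rw [Finset.mem_filter, Finset.mem_Ioc] at hp
    obtain ⟨⟨_, h2⟩, h3, h4⟩ := hp
    obtain ⟨m, hm⟩ := (Nat.modEq_iff_dvd' h3.one_lt.le).1 h4.symm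
    have h5 := h3.two_le
    have h6 : 1 ≤ m := by
      rcases Nat.eq_zero_or_pos m with h | h
      · rw [h, mul_zero] at hm
        omega
      · exact h
    have h7 : m ≤ D * m := Nat.le_mul_of_pos_left m hD
    exact ⟨m, by omega, h6, by omega⟩
  have hq : ∀ p ∈ (Ioc x X).filter (fun p => p.Prime ∧ p ≡ 1 [MOD D]),
      p = D * ((p - 1) / D) + 1 ∧ 1 ≤ (p - 1) / D ∧ (p - 1) / D ≤ X := by
    intro p hp
    obtain ⟨m, h1, h2, h3⟩ := key p hp
    have h4 : (p - 1) / D = m := by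
      rw [h1, Nat.add_sub_cancel, Nat.mul_div_cancel_left _ hD]
    rw [h4]
    exact ⟨h1, h2, h3⟩
  have hinj : Set.InjOn (fun p => (p - 1) / D)
      ((Ioc x X).filter (fun p => p.Prime ∧ p ≡ 1 [MOD D]) : Set ℕ) := by
    intro p hp q hq' h
    have h1 := (hq p (by exact_mod_cast hp)).1
    have h2 := (hq q (by exact_mod_cast hq')).1
    simp only at h
    rw [h1, h2, h]
  calc ∑ p ∈ (Ioc x X).filter (fun p => p.Prime ∧ p ≡ 1 [MOD D]), (1 : ℝ) / p
      ≤ ∑ p ∈ (Ioc x X).filter (fun p => p.Prime ∧ p ≡ 1 [MOD D]),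
          (1 / (D : ℝ)) * (((p - 1) / D : ℕ) : ℝ)⁻¹ := by
        refine Finset.sum_le_sum fun p hp => ?_
        obtain ⟨h1, h2, _⟩ := hq p hp
        have h3 : (0 : ℝ) < (((p - 1) / D : ℕ) : ℝ) := by exact_mod_cast h2
        have h4 : (D : ℝ) * (((p - 1) / D : ℕ) : ℝ) ≤ p := by
          have : D * ((p - 1) / D) ≤ p := by omega
          exact_mod_cast this
        rw [one_div, one_div, ← mul_inv]
        exact inv_anti₀ (mul_pos hDr h3) h4
    _ = ∑ m ∈ ((Ioc x X).filter (fun p => p.Prime ∧ p ≡ 1 [MOD D])).image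
          (fun p => (p - 1) / D), (1 / (D : ℝ)) * (m : ℝ)⁻¹ := by
        rw [Finset.sum_image hinj]
    _ ≤ ∑ m ∈ Icc 1 X, (1 / (D : ℝ)) * (m : ℝ)⁻¹ := by
        refine Finset.sum_le_sum_of_subset_of_nonneg ?_ fun m _ _ => by positivity
        intro m hm
        rw [Finset.mem_image] at hm
        obtain ⟨p, hp, rfl⟩ := hm
        rw [Finset.mem_Icc]
        exact (hq p hp).2
    _ = (1 / (D : ℝ)) * (harmonic X : ℝ) := by
        rw [← Finset.mul_sum, harmonic_eq_sum_Icc]
        push_cast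
        rfl
    _ ≤ (1 / (D : ℝ)) * (1 + Real.log X) :=
        mul_le_mul_of_nonneg_left (harmonic_le_one_add_log X) (by positivity)
    _ = (1 + Real.log X) / D := by ring

theorem hNTS (hBTI : StBTI) : StNTS := by
  obtain ⟨Cb, hCb, hB⟩ := hBTI
  refine ⟨6 * (6 * Cb + 1), by positivity, fun A C₁ hA hC₁ => ?_⟩
  -- the constant `K = C₁ A`
  obtain ⟨K, hK⟩ : ∃ K : ℝ, K = (C₁ * A : ℕ) := ⟨_, rfl⟩
  have hK1 : 1 ≤ K := by
    rw [hK]
    have : 1 ≤ C₁ * A := Nat.one_le_iff_ne_zero.2 (by positivity)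
    exact_mod_cast this
  -- choice of `y₀`
  have hlim : ∀ᶠ y : ℕ in Filter.atTop, 2 * K * (1 + K) * Real.log y ^ 3 ≤ y := by
    have h1 : (fun x : ℝ => Real.log x ^ 3) =o[Filter.atTop] (fun x : ℝ => x) := by
      have := isLittleO_log_rpow_rpow_atTop (3 : ℝ) (by norm_num : (0 : ℝ) < 1)
      refine (this.congr_left ?_).congr_right ?_
      · intro x
        exact_mod_cast Real.rpow_natCast (Real.log x) 3
      · intro x
        exact Real.rpow_one x
    have hc : 0 < 1 / (2 * K * (1 + K)) := by positivity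
    have h2 := h1.bound hc
    have h3 := tendsto_natCast_atTop_atTop (R := ℝ) |>.eventually h2
    filter_upwards [h3] with y hy
    have h4 : Real.log (y : ℝ) ^ 3 ≤ 1 / (2 * K * (1 + K)) * y := by
      refine (le_abs_self _).trans ?_
      have := hy
      rw [Real.norm_eq_abs, Real.norm_eq_abs, abs_of_nonneg (Nat.cast_nonneg (α := ℝ) y)] at this
      exact this
    have h5 : 0 < 2 * K * (1 + K) := by positivity
    calc 2 * K * (1 + K) * Real.log y ^ 3 ≤ 2 * K * (1 + K) * (1 / (2 * K * (1 + K)) * y) :=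
          mul_le_mul_of_nonneg_left h4 h5.le
      _ = y := by field_simp
  obtain ⟨y₁, hy₁⟩ := Filter.eventually_atTop.1 hlim
  refine ⟨max y₁ 3, fun y hy => ?_⟩
  have hy3 : 3 ≤ y := le_of_max_le_right hy
  have hyr : (3 : ℝ) ≤ y := by exact_mod_cast hy3
  have hyE := hy₁ y (le_of_max_le_left hy)
  have hL1 : 1 ≤ Real.log y := by
    rw [Real.le_log_iff_exp_le (by linarith)]
    have := Real.exp_one_lt_d9
    linarith
  obtain ⟨x, hx⟩ : ∃ x, x = y ^ C₁ := ⟨_, rfl⟩
  obtain ⟨X, hX⟩ : ∃ X, X = y ^ (C₁ * A) := ⟨_, rfl⟩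
  have hxX : X = x ^ A := by rw [hX, hx, pow_mul]
  have hxy4 : y ^ 4 ≤ x := by
    rw [hx]
    exact Nat.pow_le_pow_right (by omega) hC₁
  have hx2 : 2 ≤ x := by
    have : 3 ^ 4 ≤ y ^ 4 := Nat.pow_le_pow_left hy3 4
    omega
  have hX1 : 1 ≤ X := by
    rw [hX]
    exact Nat.one_le_pow _ _ (by omega)
  have hlogX : Real.log X = K * Real.log y := by
    rw [hX, Nat.cast_pow, Real.log_pow, hK]
  have hlogx : Real.log x = C₁ * Real.log y := by
    rw [hx, Nat.cast_pow, Real.log_pow]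
  have hC₁r : (4 : ℝ) ≤ C₁ := by exact_mod_cast hC₁
  have hlogxp : 0 < Real.log x := by
    rw [hlogx]
    positivity
  have hlA : 0 ≤ Real.log A := Real.log_natCast_nonneg A
  obtain ⟨J, hJ⟩ : ∃ J, J = Nat.log 2 X := ⟨_, rfl⟩
  have hJX : X < 2 ^ (J + 1) := by
    rw [hJ]
    exact Nat.lt_pow_succ_log_self (by norm_num) X
  have hJr : (J : ℝ) ≤ 2 * (K * Real.log y) := by
    have h1 : 2 ^ J ≤ X := by
      rw [hJ]
      exact Nat.pow_log_le_self 2 (by omega)
    have h2 : (J : ℝ) * Real.log 2 ≤ Real.log X := by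
      rw [← Real.log_pow]
      apply Real.log_le_log (by positivity)
      exact_mod_cast h1
    rw [hlogX] at h2
    have h3 := Real.log_two_gt_d9
    have h4 : (0 : ℝ) ≤ J := Nat.cast_nonneg J
    nlinarith
  -- sums over a progression
  have hT : ∀ l ∈ y.primesLE, ∀ j ∈ Icc 1 J,
      ∑ p ∈ (Ioc x X).filter (fun p => p.Prime ∧ p ≡ 1 [MOD l ^ j]), (1 : ℝ) / p
        ≤ Cb * (1 + Real.log A) * (1 / (l : ℝ)) ^ j + (1 + Real.log X) / (y : ℝ) ^ 2 := by
    intro l hl j hj
    rw [Nat.mem_primesLE] at hl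
    rw [Finset.mem_Icc] at hj
    have hlr : (0 : ℝ) < l := by exact_mod_cast hl.2.pos
    have hlogXn : 0 ≤ Real.log X := Real.log_natCast_nonneg X
    by_cases hc : (l ^ j) ^ 2 ≤ x
    · have h1 := hB x A l j hx2 hA hl.2 hj.1 hc
      rw [← hxX] at h1
      have h2 : Cb * (1 + Real.log A) / (l : ℝ) ^ j
          = Cb * (1 + Real.log A) * (1 / (l : ℝ)) ^ j := by
        rw [div_pow, one_pow]
        ring
      rw [h2] at h1
      have h3 : 0 ≤ (1 + Real.log X) / (y : ℝ) ^ 2 := by positivity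
      linarith
    · have h1 := nts_triv x X (l ^ j) (pow_pos hl.2.pos j)
      have h2 : y ^ 2 ≤ l ^ j := by
        by_contra hlt
        push Not at hlt
        have h3 : (l ^ j) ^ 2 ≤ (y ^ 2) ^ 2 := Nat.pow_le_pow_left hlt.le 2
        have h4 : (y ^ 2) ^ 2 = y ^ 4 := by rw [← pow_mul]
        omega
      have h3 : (1 + Real.log X) / ((l ^ j : ℕ) : ℝ) ≤ (1 + Real.log X) / (y : ℝ) ^ 2 := by
        apply div_le_div_of_nonneg_left (by positivity) (by positivity)
        exact_mod_cast h2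
      have h4 : 0 ≤ Cb * (1 + Real.log A) * (1 / (l : ℝ)) ^ j := by positivity
      linarith
  -- sum over `j`
  have hTj : ∀ l ∈ y.primesLE,
      ∑ j ∈ Icc 1 J, ∑ p ∈ (Ioc x X).filter (fun p => p.Prime ∧ p ≡ 1 [MOD l ^ j]), (1 : ℝ) / p
        ≤ Cb * (1 + Real.log A) * (2 / (l : ℝ)) + J * ((1 + Real.log X) / (y : ℝ) ^ 2) := by
    intro l hl
    refine (Finset.sum_le_sum (hT l hl)).trans ?_
    rw [Nat.mem_primesLE] at hl
    have hl2 : (2 : ℝ) ≤ l := by exact_mod_cast hl.2.two_le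
    rw [Finset.sum_add_distrib, ← Finset.mul_sum, Finset.sum_const, Nat.card_Icc,
      Nat.add_sub_cancel, nsmul_eq_mul]
    have h1 : ∑ j ∈ Icc 1 J, (1 / (l : ℝ)) ^ j ≤ 2 / (l : ℝ) := by
      have h2 : Icc 1 J = Ico 1 (J + 1) := by
        ext j
        rw [Finset.mem_Icc, Finset.mem_Ico]
        omega
      rw [h2]
      have h3 : (1 : ℝ) / l < 1 := by
        rw [div_lt_one (by linarith)]
        linarith
      refine (geom_sum_Ico_le_of_lt_one (by positivity) h3).trans ?_
      rw [pow_one]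
      have h4 : 1 / (l : ℝ) ≤ 1 / 2 := one_div_le_one_div_of_le (by norm_num) hl2
      rw [div_le_iff₀ (by linarith)]
      have h5 : (2 : ℝ) / l = 2 * (1 / l) := by ring
      rw [h5]
      have h6 : 0 ≤ 1 / (l : ℝ) := by positivity
      nlinarith
    have h2 := mul_le_mul_of_nonneg_left h1 (by positivity : 0 ≤ Cb * (1 + Real.log A))
    linarith
  -- the main sum
  have hmain : ∑ l ∈ y.primesLE, Real.log l *
      ∑ j ∈ Icc 1 J, ∑ p ∈ (Ioc x X).filter (fun p => p.Prime ∧ p ≡ 1 [MOD l ^ j]), (1 : ℝ) / p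
      ≤ 2 * Cb * (1 + Real.log A) * (Real.log y + Real.log 4) + 1 := by
    have h1 : ∑ l ∈ y.primesLE, Real.log l *
      ∑ j ∈ Icc 1 J, ∑ p ∈ (Ioc x X).filter (fun p => p.Prime ∧ p ≡ 1 [MOD l ^ j]), (1 : ℝ) / p
      ≤ ∑ l ∈ y.primesLE, (2 * Cb * (1 + Real.log A) * (Real.log l / l) +
          Real.log y * (J * ((1 + Real.log X) / (y : ℝ) ^ 2))) := by
      refine Finset.sum_le_sum fun l hl => ?_
      have h2 := mul_le_mul_of_nonneg_left (hTj l hl) (Real.log_natCast_nonneg l)
      rw [Nat.mem_primesLE] at hl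
      have h3 : Real.log l ≤ Real.log y := by
        apply Real.log_le_log (by exact_mod_cast hl.2.pos)
        exact_mod_cast hl.1
      have hlogXn : 0 ≤ Real.log X := Real.log_natCast_nonneg X
      have h4 : Real.log l * (J * ((1 + Real.log X) / (y : ℝ) ^ 2))
          ≤ Real.log y * (J * ((1 + Real.log X) / (y : ℝ) ^ 2)) :=
        mul_le_mul_of_nonneg_right h3 (by positivity)
      have h5 : Real.log l * (Cb * (1 + Real.log A) * (2 / (l : ℝ)))
          = 2 * Cb * (1 + Real.log A) * (Real.log l / l) := by ring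
      rw [mul_add, h5] at h2
      linarith
    refine h1.trans ?_
    rw [Finset.sum_add_distrib, ← Finset.mul_sum, Finset.sum_const, nsmul_eq_mul]
    have h2 := nts_mertens y (by omega)
    have h3 := mul_le_mul_of_nonneg_left h2 (by positivity : 0 ≤ 2 * Cb * (1 + Real.log A))
    have hcard : (y.primesLE.card : ℝ) ≤ y := by
      have h4 : y.primesLE ⊆ Icc 1 y := by
        intro l hl
        rw [Nat.mem_primesLE] at hl
        rw [Finset.mem_Icc]
        exact ⟨hl.2.one_lt.le, hl.1⟩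
      have h5 := Finset.card_le_card h4
      rw [Nat.card_Icc, Nat.add_sub_cancel] at h5
      exact_mod_cast h5
    have h6 : (y.primesLE.card : ℝ) * (Real.log y * (J * ((1 + Real.log X) / (y : ℝ) ^ 2)))
        ≤ 1 := by
      have hlogXn : 0 ≤ Real.log X := Real.log_natCast_nonneg X
      have hyp : (0 : ℝ) < y := by linarith
      calc (y.primesLE.card : ℝ) * (Real.log y * (J * ((1 + Real.log X) / (y : ℝ) ^ 2)))
          ≤ (y : ℝ) * (Real.log y * (J * ((1 + Real.log X) / (y : ℝ) ^ 2))) :=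
            mul_le_mul_of_nonneg_right hcard (by positivity)
        _ = Real.log y * J * (1 + Real.log X) / y := by
            field_simp
        _ ≤ Real.log y * (2 * (K * Real.log y)) * ((1 + K) * Real.log y) / y := by
            apply div_le_div_of_nonneg_right _ hyp.le
            apply mul_le_mul
            · exact mul_le_mul_of_nonneg_left hJr (by positivity)
            · rw [hlogX]
              nlinarith
            · positivity
            · positivity
        _ = (2 * K * (1 + K) * Real.log y ^ 3) / y := by ring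
        _ ≤ y / y := div_le_div_of_nonneg_right hyE hyp.le
        _ = 1 := div_self hyp.ne'
    linarith
  -- reduction to the main sum
  have hred : ∑ p ∈ (Ioc x X).filter
      (fun p : ℕ => p.Prime ∧ (p : ℝ) ^ (1 / 6 : ℝ) < (Sm y (p - 1) : ℝ)), (1 : ℝ) / (p : ℝ)
      ≤ 6 / Real.log x * ∑ l ∈ y.primesLE, Real.log l *
      ∑ j ∈ Icc 1 J, ∑ p ∈ (Ioc x X).filter (fun p => p.Prime ∧ p ≡ 1 [MOD l ^ j]),
        (1 : ℝ) / p := by
    have h1 : ∑ l ∈ y.primesLE, Real.log l *
        ∑ j ∈ Icc 1 J, ∑ p ∈ (Ioc x X).filter (fun p => p.Prime ∧ p ≡ 1 [MOD l ^ j]), (1 : ℝ) / p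
        = ∑ p ∈ (Ioc x X).filter Nat.Prime, (1 : ℝ) / p *
          ∑ l ∈ y.primesLE, ∑ j ∈ Icc 1 J, if l ^ j ∣ (p - 1) then Real.log l else 0 := by
      have h2 : ∀ l ∈ y.primesLE, ∀ j ∈ Icc 1 J, Real.log l *
          ∑ p ∈ (Ioc x X).filter (fun p => p.Prime ∧ p ≡ 1 [MOD l ^ j]), (1 : ℝ) / p
          = ∑ p ∈ (Ioc x X).filter Nat.Prime, (1 : ℝ) / p *
            (if l ^ j ∣ (p - 1) then Real.log l else 0) := by
        intro l _ j _
        rw [← Finset.filter_filter, Finset.sum_filter, Finset.mul_sum]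
        refine Finset.sum_congr rfl fun p hp => ?_
        have hpp := (Finset.mem_filter.1 hp).2
        have hiff : p ≡ 1 [MOD l ^ j] ↔ l ^ j ∣ (p - 1) := by
          rw [← Nat.modEq_iff_dvd' hpp.one_lt.le]
          exact ⟨fun h => h.symm, fun h => h.symm⟩
        by_cases hd : l ^ j ∣ (p - 1)
        · rw [if_pos (hiff.2 hd), if_pos hd, mul_comm]
        · rw [if_neg (fun h => hd (hiff.1 h)), if_neg hd, mul_zero, mul_zero]
      calc ∑ l ∈ y.primesLE, Real.log l *
          ∑ j ∈ Icc 1 J, ∑ p ∈ (Ioc x X).filter (fun p => p.Prime ∧ p ≡ 1 [MOD l ^ j]),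
            (1 : ℝ) / p
          = ∑ l ∈ y.primesLE, ∑ j ∈ Icc 1 J, ∑ p ∈ (Ioc x X).filter Nat.Prime, (1 : ℝ) / p *
            (if l ^ j ∣ (p - 1) then Real.log l else 0) := by
            refine Finset.sum_congr rfl fun l hl => ?_
            rw [Finset.mul_sum]
            exact Finset.sum_congr rfl fun j hj => h2 l hl j hj
        _ = ∑ l ∈ y.primesLE, ∑ p ∈ (Ioc x X).filter Nat.Prime, (1 : ℝ) / p *
            ∑ j ∈ Icc 1 J, (if l ^ j ∣ (p - 1) then Real.log l else 0) := by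
            refine Finset.sum_congr rfl fun l hl => ?_
            rw [Finset.sum_comm]
            refine Finset.sum_congr rfl fun p _ => ?_
            rw [Finset.mul_sum]
        _ = _ := by
            rw [Finset.sum_comm]
            refine Finset.sum_congr rfl fun p _ => ?_
            rw [Finset.mul_sum]
    rw [h1, Finset.mul_sum]
    have hnn : ∀ p : ℕ, 0 ≤ ∑ l ∈ y.primesLE, ∑ j ∈ Icc 1 J,
        if l ^ j ∣ (p - 1) then Real.log (l : ℝ) else 0 := by
      intro p
      refine Finset.sum_nonneg fun l _ => Finset.sum_nonneg fun j _ => ?_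
      split_ifs
      · exact Real.log_natCast_nonneg l
      · exact le_rfl
    have hsub : (Ioc x X).filter
        (fun p : ℕ => p.Prime ∧ (p : ℝ) ^ (1 / 6 : ℝ) < (Sm y (p - 1) : ℝ)) ⊆
        (Ioc x X).filter Nat.Prime := by
      intro p hp
      rw [Finset.mem_filter] at hp ⊢
      exact ⟨hp.1, hp.2.1⟩
    refine le_trans (Finset.sum_le_sum fun p hp => ?_)
      (Finset.sum_le_sum_of_subset_of_nonneg hsub fun p _ _ => ?_)
    · rw [Finset.mem_filter, Finset.mem_Ioc] at hp
      obtain ⟨⟨hp1, hp2⟩, hpp, hpS⟩ := hp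
      have hpr : (0 : ℝ) < p := by exact_mod_cast hpp.pos
      have h3 : (1 / 6 : ℝ) * Real.log p ≤ Real.log (Sm y (p - 1) : ℝ) := by
        rw [← Real.log_rpow hpr]
        exact Real.log_le_log (Real.rpow_pos_of_pos hpr _) hpS.le
      have h4 : Real.log x ≤ Real.log p := by
        apply Real.log_le_log (by positivity)
        exact_mod_cast hp1.le
      have h5 := nts_log y (p - 1) J (by have := hpp.two_le; omega) (by omega)
      have h6 : 1 ≤ 6 / Real.log x * ∑ l ∈ y.primesLE, ∑ j ∈ Icc 1 J,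
          (if l ^ j ∣ (p - 1) then Real.log (l : ℝ) else 0) := by
        rw [div_mul_eq_mul_div, le_div_iff₀ hlogxp]
        linarith
      calc (1 : ℝ) / p = (1 : ℝ) / p * 1 := (mul_one _).symm
        _ ≤ (1 : ℝ) / p * (6 / Real.log x * ∑ l ∈ y.primesLE, ∑ j ∈ Icc 1 J,
          (if l ^ j ∣ (p - 1) then Real.log (l : ℝ) else 0)) :=
            mul_le_mul_of_nonneg_left h6 (by positivity)
        _ = _ := by ring
    · have := hnn p
      positivity
  rw [← hx, ← hX]
  refine hred.trans ?_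
  have h1 := mul_le_mul_of_nonneg_left hmain (by positivity : 0 ≤ 6 / Real.log x)
  refine h1.trans ?_
  have hlog4 : Real.log 4 ≤ 2 := by
    have h2 : Real.log 4 = 2 * Real.log 2 := by
      rw [show (4 : ℝ) = 2 ^ 2 by norm_num, Real.log_pow]
      norm_num
    have h3 := Real.log_two_lt_d9
    rw [h2]
    linarith
  rw [hlogx]
  have h2 : 2 * Cb * (1 + Real.log A) * (Real.log y + Real.log 4) + 1
      ≤ (6 * Cb + 1) * (1 + Real.log A) * Real.log y := by
    have h3 : Real.log y + Real.log 4 ≤ 3 * Real.log y := by linarith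
    have h4 : 0 ≤ 2 * Cb * (1 + Real.log A) := by positivity
    have h5 := mul_le_mul_of_nonneg_left h3 h4
    have h6 : 1 ≤ (1 + Real.log A) * Real.log y := by nlinarith
    nlinarith
  have h3 : 0 ≤ 6 / ((C₁ : ℝ) * Real.log y) := by positivity
  refine (mul_le_mul_of_nonneg_left h2 h3).trans (le_of_eq ?_)
  field_simp

end Pool.Agent.Helper80.SPR
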